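import Pool.Agent.Helper740.LOC.HJ
import Pool.Agent.Helper970.LOC.T2
import Pool.Agent.Helper379.LOC.LinDisj

/-! The extension lemma and the HJ lemma. -/

set_option autoImplicit false
set_option linter.all false
set_option linter.overlappingInstances false

open Module Polynomial

namespace FFT

theorem ext_lemma740 : ExtStmt := by
  intro R E M _ _ _ _ _ _ _ _ _ L S hS θ hθS hθ E1 _ _ _ _ φ1 hφ
  classical
  have hθint : IsIntegral R θ := (Algebra.IsAlgebraic.isAlgebraic θ).isIntegral
  let K := IntermediateField.adjoin R {θ}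
  let A := Algebra.adjoin R (S : Set M)
  have hKM : ∀ c : K, algebraMap K M c = algebraMap E M (c : E) := fun c =>
    IsScalarTower.algebraMap_apply K E M c
  -- `K` maps into `A`
  have hKA : ∀ c : K, algebraMap K M c ∈ A := by
    intro c
    rw [hKM]
    have h1 : (c : E) ∈ Algebra.adjoin R {θ} := by
      have h2 : (c : E) ∈ (IntermediateField.adjoin R {θ}).toSubalgebra := c.2
      rwa [IntermediateField.adjoin_simple_toSubalgebra_of_isAlgebraic hθint.isAlgebraic] at h2
    have h3 : algebraMap E M (c : E) ∈ (Algebra.adjoin R {θ}).map (IsScalarTower.toAlgHom R E M) :=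
      ⟨_, h1, rfl⟩
    rw [AlgHom.map_adjoin] at h3
    refine Algebra.adjoin_mono ?_ h3
    rintro _ ⟨_, rfl, rfl⟩
    exact hθS
  let ι0 : K →+* A := (algebraMap K M).codRestrict A.toSubring hKA
  letI : Algebra K A := ι0.toAlgebra
  have hKAM : ∀ c : K, ((algebraMap K A c : A) : M) = algebraMap K M c := fun c => rfl
  haveI : IsScalarTower K A M := IsScalarTower.of_algebraMap_eq (fun _ => rfl)
  haveI : IsScalarTower R K A := IsScalarTower.of_algebraMap_eq (fun c => by
    apply Subtype.val_injective
    change algebraMap R M c = algebraMap K M (algebraMap R K c)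
    rw [← IsScalarTower.algebraMap_apply R K M])
  -- `φ1` is `K`-linear
  have hφK : ∀ c : K, φ1 (algebraMap K A c) = algebraMap K E1 c := by
    let f1 : K →ₐ[R] E1 := φ1.comp (IsScalarTower.toAlgHom R K A)
    let f2 : K →ₐ[R] E1 := IsScalarTower.toAlgHom R K E1
    have h12 : f1 = f2 := by
      apply IntermediateField.adjoin_algHom_ext
      rintro x hx
      rw [Set.mem_singleton_iff] at hx
      subst hx
      change φ1 (algebraMap K A ⟨x, _⟩) = algebraMap K E1 ⟨x, _⟩
      rw [IsScalarTower.algebraMap_apply K E E1]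
      refine Eq.trans ?_ hφ
      congr 1
    intro c
    exact congrArg (fun f : K →ₐ[R] E1 => f c) h12
  let φ : A →ₐ[K] E1 := { φ1.toRingHom with commutes' := hφK }
  -- the basis
  let b := Basis.ofVectorSpace K A
  have hAL : ∀ t : A, (t : M) ∈ L := by
    intro t
    have h1 : Algebra.adjoin R (S : Set M) ≤ L.toSubalgebra := by
      rw [Algebra.adjoin_le_iff]
      intro x hx
      exact hS x hx
    exact h1 t.2
  let Rl := IntermediateField.adjoin R {algebraMap E M θ}
  have hRlmap : Rl = (IntermediateField.adjoin R {θ}).map (IsScalarTower.toAlgHom R E M) := by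
    rw [IntermediateField.adjoin_map, Set.image_singleton]
    rfl
  have hRlK : ∀ r : Rl, ∃ c : K, algebraMap K M c = (r : M) := by
    intro r
    have h1 : (r : M) ∈ (IntermediateField.adjoin R {θ}).map (IsScalarTower.toAlgHom R E M) := by
      rw [← hRlmap]; exact r.2
    obtain ⟨c, hc, hc'⟩ := h1
    exact ⟨⟨c, hc⟩, hc'⟩
  have hle : Rl ≤ L := by
    rw [IntermediateField.adjoin_le_iff]
    rintro _ rfl
    exact hS _ hθS
  have hRa : ∀ f ∈ Rl, IsAlgebraic R f := by
    intro f hf
    obtain ⟨c, hc⟩ := hRlK ⟨f, hf⟩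
    change algebraMap K M c = f at hc
    rw [← hc, hKM]
    exact (Algebra.IsAlgebraic.isAlgebraic (R := R) (c : E)).algebraMap
  have hind : LinearIndependent Rl (fun i => ((b i : A) : M)) := by
    rw [linearIndependent_iff']
    intro s g hg i hi
    choose c hc using hRlK
    have h1 : ∑ i ∈ s, c (g i) • b i = 0 := by
      apply Subtype.val_injective
      refine Eq.trans ?_ hg
      simp only [AddSubmonoidClass.coe_finsetSum]
      apply Finset.sum_congr rfl
      intro j _
      rw [Algebra.smul_def, Algebra.smul_def]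
      change algebraMap K M (c (g j)) * _ = _
      rw [hc]
      rfl
    have h2 := linearIndependent_iff'.1 b.linearIndependent s (fun i => c (g i)) h1 i hi
    have h3 := hc (g i)
    have h4 : c (g i) = 0 := h2
    rw [h4, map_zero] at h3
    exact Subtype.val_injective h3.symm
  have hb := lin_disj (E := E) L Rl hle hθ hRa (fun i => ((b i : A) : M)) (fun i => hAL _) hind
  refine ext_hom (K := K) (E := E) (A := A) (M := M) (E' := E1) b hb φ (S : Set M) ?_
  intro t ht
  exact ⟨⟨t, Algebra.subset_adjoin ht⟩, rfl⟩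

theorem HJ_lemma740 {R E M : Type} [Field R] [CharZero R] [Field E] [Algebra R E]
    [Field M] [Algebra R M] [Algebra E M]
    [IsScalarTower R E M] [Algebra.IsAlgebraic R E] (L : IntermediateField R M) (S : Finset M)
    (hS : ∀ t ∈ S, t ∈ L) (θ : E) (hθS : algebraMap E M θ ∈ S)
    (hθ : ∀ f ∈ L, IsAlgebraic R f → f ∈ IntermediateField.adjoin R {algebraMap E M θ}) (I : ℕ)
    (hI : ∀ (E' : Type) [Field E'] [Algebra E E'], FiniteDimensional E E' →
      Nonempty (Algebra.adjoin E (S : Set M) →ₐ[E] E') → I ∣ finrank E E')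
    (Ψ : Type) [Field Ψ] [Algebra R Ψ] (hΨ : FiniteDimensional R Ψ)
    (φ : Algebra.adjoin R (S : Set M) →ₐ[R] Ψ) :
    finrank R (IntermediateField.adjoin R {θ}) * I ∣ finrank R Ψ :=
  HJ_lemma_of ext_lemma740 L S hS θ hθS hθ I hI Ψ hΨ φ

end FFT
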